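import Pool.Agent.H7.LP.Targets

/-!
# Row PRM of the board lpg_modules (helper73)
-/

set_option autoImplicit false

open Set Filter Topology

namespace Pool.Agent.H73.LPG

open Pool.Agent.H7.LP

/-- the right coset of `g` -/
def rcl {G : Type} [Group G] (K : Subgroup G) (g : G) : Set G := {a | a * g⁻¹ ∈ K}

lemma rcl_eq {G : Type} [Group G] {K : Subgroup G} {g h : G} (hgh : g * h⁻¹ ∈ K) :
    rcl K h = rcl K g := by
  ext a
  constructor
  · intro ha
    have h1 : a * g⁻¹ = (a * h⁻¹) * (g * h⁻¹)⁻¹ := by group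
    change a * g⁻¹ ∈ K
    rw [h1]
    exact K.mul_mem ha (K.inv_mem hgh)
  · intro ha
    have h1 : a * h⁻¹ = (a * g⁻¹) * (g * h⁻¹) := by group
    change a * h⁻¹ ∈ K
    rw [h1]
    exact K.mul_mem ha hgh

lemma rcl_self {G : Type} [Group G] (K : Subgroup G) (g : G) : g ∈ rcl K g := by
  change g * g⁻¹ ∈ K
  rw [mul_inv_cancel]
  exact K.one_mem

theorem pf_PRM (_h1 : T_LAB) (h2 : T_INV) (h3 : T_MAT) : T_PRM := by
  intro G X _ _ _ _ L M _ Y S x e e' w w' he he' hw hw'
  -- the permutation at one type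
  have key : ∀ q : ℕ, ∃ π : Equiv.Perm ℕ, (∃ g, S.Node x q g) →
      ∀ j, e' (q, j) * (e (q, π j))⁻¹ ∈ S.K q := by
    intro q
    by_cases hq : ∃ g, S.Node x q g
    · obtain ⟨g, hg⟩ := hq
      have hn := he.node q g hg
      have hn' := he'.node q g hg
      obtain ⟨π, hπ⟩ := h3 (Set G) (fun j => rcl (S.K q) (e (q, j)))
        (fun j => rcl (S.K q) (e' (q, j)))
        (fun j N => by
          obtain ⟨k, hk, hk'⟩ := he.all q _ (hn j) N
          exact ⟨k, hk, rcl_eq hk'⟩)
        (fun j N => by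
          obtain ⟨k, hk, hk'⟩ := he'.all q _ (hn j) N
          exact ⟨k, hk, rcl_eq hk'⟩)
        (fun j N => by
          obtain ⟨k, hk, hk'⟩ := he.all q _ (hn' j) N
          exact ⟨k, hk, rcl_eq hk'⟩)
        (fun j N => by
          obtain ⟨k, hk, hk'⟩ := he'.all q _ (hn' j) N
          exact ⟨k, hk, rcl_eq hk'⟩)
      refine ⟨π, fun _ j => ?_⟩
      have h4 := hπ j
      have h5 : e' (q, j) ∈ rcl (S.K q) (e (q, π j)) := by
        rw [← h4]
        exact rcl_self _ _
      exact h5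
    · exact ⟨1, fun h => absurd h hq⟩
  choose π hπ using key
  refine ⟨π, ?_⟩
  have hstr : S.IsStr x (fun i => e (mv π i)) (fun t => w (mv π t.1, mv π t.2.1, t.2.2)) := by
    intro i j n
    exact hw (mv π i) (mv π j) n
  have hstr' := (h2 G X L M Y S x (fun i => e (mv π i)) e' (fun i g hg => by
    have := hπ i.1 ⟨g, hg⟩ i.2
    exact this)).2 _ hstr
  intro i j n
  have a := hstr' i j n
  have b := hw' i j n
  simp only at a
  have c : w' (i, j, n) = true ↔ w (mv π i, mv π j, n) = true := b.trans a.symm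
  cases h5 : w' (i, j, n) <;> cases h6 : w (mv π i, mv π j, n) <;> simp_all

end Pool.Agent.H73.LPG
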